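import Pool.Agent.helper94.SLK.AB
import Pool.Agent.helper94.SLK.TP

/-!
# Topologically slice string links that should not commute (MP_d0cbcd_gt)

Let `J`, `J'` be framed string knots. Tying the strands 1, 2 together into `J` gives the string link `J₁₂`, tying the
strands 2, 3 together into `J'` gives `J'₂₃`. If `J`, `J'` are topologically slice, then `J₁₂`, `J'₂₃` are topologically
concordant to the trivial string link. If `J₁₂ · J'₂₃` and `J'₂₃ · J₁₂` are smoothly concordant, then the long knot
`D (J, J')`, the zigzag closure (cap over the strands 1, 2, cup under the strands 2, 3) of `J₁₂ · J'₂₃`, is smoothly slice: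
the zigzag closure of `J'₂₃ · J₁₂` is isotopic to the zigzag, as the doubled arcs can be pulled out of the tubes.

`D (J, J')` is Levine's generalized Whitehead double `D_{J,0} (J', 0)`, the boundary of the plumbing of the 0-framed annuli
with cores `J` and `J'`.
-/

open Set Filter
open scoped ContDiff

namespace Pool.Agent.Results.MP_d0cbcd_gt.GeneralizedDoubles

open Pool.Agent.helper94.SLK

/-- the string link with the arcs `f` -/
noncomputable def link {m : ℕ} {p : Fin m → R2} (f : Fin m → ℝ → R3) (h : ∃ L : SL m p, L.f = f) : SL m p where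
  f := f
  smooth := by obtain ⟨L, rfl⟩ := h; exact L.smooth
  imm := by obtain ⟨L, rfl⟩ := h; exact L.imm
  inj := by obtain ⟨L, rfl⟩ := h; exact L.inj
  inside := by obtain ⟨L, rfl⟩ := h; exact L.inside
  ends := by obtain ⟨L, rfl⟩ := h; exact L.ends

/-- the stacked string link, `X` below `Y` -/
noncomputable def stack {m : ℕ} {p : Fin m → R2} (X Y : SL m p) : SL m p := link (stackF X Y) (MU X Y)

/-- the trivial string link -/
noncomputable def triv (m : ℕ) : SL m (pts m) := link (trivF m) (TI_triv m)

/-- `J₁₂`: the strands 1, 2 run in parallel through `J` -/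
noncomputable def tie12 (m : ℕ) (J : FK) : SL m (pts m) :=
  link (tieF (-1 / 4) 0 1 m J) (TI (by rw [abs_le]; constructor <;> norm_num) TI_TC12 m J)

/-- `J₂₃`: the strands 2, 3 run in parallel through `J` -/
noncomputable def tie23 (m : ℕ) (J : FK) : SL m (pts m) :=
  link (tieF (1 / 4) 1 2 m J) (TI (by rw [abs_le]; constructor <;> norm_num) TI_TC23 m J)

/-- the zigzag closure of a 3-component string link -/
noncomputable def zclosure (L : SL 3 (pts 3)) : LK where
  K := closF L
  smooth := (CL L).1
  imm := (CL L).2.1
  inj := (CL L).2.2.1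
  ends := (CL L).2.2.2

/-- the generalized double -/
noncomputable def D (J J' : FK) : LK := zclosure (stack (tie12 3 J) (tie23 3 J'))

/-- smoothly slice long knots: concordant to the unknotted zigzag -/
def SmSlice (K : LK) : Prop := LConc K.K zig

theorem comm_slice (J J' : FK) (h : SmConc (stack (tie12 3 J) (tie23 3 J')) (stack (tie23 3 J') (tie12 3 J))) :
    SmSlice (D J J') := by
  have h1 := CC h
  have h2 : closF (stack (tie23 3 J') (tie12 3 J)) = fun t => gm J J' (zig t) :=
    funext fun t => GZ J J' (A := tie23 3 J') (B := tie12 3 J) (C := stack (tie23 3 J') (tie12 3 J)) rfl rfl rfl t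
  rw [h2] at h1
  exact LT h1 (AB J J')

theorem result (m : ℕ) (hm : 3 ≤ m) (J J' : FK) (hJ : J.TopSlice) (hJ' : J'.TopSlice) :
    TopConc (tie12 m J) (triv m) ∧ TopConc (tie23 m J') (triv m) ∧
      (SmConc (stack (tie12 m J) (tie23 m J')) (stack (tie23 m J') (tie12 m J)) → SmSlice (D J J')) := by
  refine ⟨TP (by rw [abs_le]; constructor <;> norm_num) TI_TC12 m J hJ _ _ rfl rfl,
    TP (by rw [abs_le]; constructor <;> norm_num) TI_TC23 m J' hJ' _ _ rfl rfl, fun h => comm_slice J J' ?_⟩
  exact RE hm (A := stack (tie12 3 J) (tie23 3 J')) (A' := stack (tie23 3 J') (tie12 3 J)) rfl rfl h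

end Pool.Agent.Results.MP_d0cbcd_gt.GeneralizedDoubles
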